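import Pool.Agent.Lib_SLitE.MainE

/-!
# MP_25630e_an: the lower bound `0.3423 log |A| - C`

There is `C` such that `∫₀¹ |∑_{a ∈ A} c_a e(a x)| dx ≥ 0.3423 log |A| - C` for every finite set `A` of integers and all coefficients `|c_a| ≥ 1`.

Sketch. Let `x0` be a median of `A`. Right of `x0` (frequencies `t_1 < … < t_N`) and left of it (`u_1 < … < u_M`) one builds by the Schur algorithm functions `U`, `V` bounded by `1`, with
spectrum in `{1, 2, …}`, `Û(t_j) = (r/π)/(s+N-j)` and `V̂(u_i) = (r/π)/(s+M-i)` up to phases, and Schur parameters `0` at all other times. The test function is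
`F = (3g-3g³)/2 (U + conj V) - (g³/2) (U² V + conj (V² U))`, `g = 0.538`; on the torus `|F| = |3s - 4s³|` with `|s| ≤ g`, and `|F| ≤ 1` by the maximum principle.
The coefficient of `U² V` at a right frequency `n = t_j` is the one of `U_n² V_n`, where `U_n`, `V_n` are the stages of the algorithm before `n`. By the pointwise inequality
`u² v ≤ X/6 + (5/6) ((1-τ)² X + τ² Y)`, `X = -log (1-u²)`, `Y = -log (1-v²)` (all real `τ`), and the entropy identity `∫ -log (1-|U_n|²) = -log ∏ (1-|γ_i|²) ≤ 1/(4x-1)`
(`x` = number of the remaining right elements plus `s`, `y` the same on the left) it is at most `(1/6)/(4x-1) + (5/6)/((4x-1)+(4y-1))`. The last fractions are summed over both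
sides at once: the numbers `x + y` run through distinct values, so their total is at most `(1/4) log |A|`.
-/

set_option autoImplicit false

namespace Pool.Agent.Results.MP_25630e_an.EntropyBound

theorem result : ∃ C : ℝ, ∀ (A : Finset ℤ) (c : ℤ → ℂ), (∀ a ∈ A, 1 ≤ ‖c a‖) →
    0.3423 * Real.log (A.card : ℝ) - C ≤
      ∫ x in (0:ℝ)..1, ‖∑ a ∈ A, c a * Complex.exp (2 * (Real.pi : ℂ) * Complex.I * (a : ℂ) * (x : ℂ))‖ :=
  Pool.Agent.SLit.entropy_bound

end Pool.Agent.Results.MP_25630e_an.EntropyBound
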