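import Pool.Agent.Lib_SLit.TwoB

/-!
# MP_25630e_an: the strong Littlewood conjecture up to the number of occupied dyadic annuli

For every `δ > 0` there is `C` such that for every finite set `A` of integers, every centre `x0` and every radius `D > 0`
`∫₀¹ |∑_{a ∈ A} e(a x)| dx ≥ (2/π² - δ) (log (1 + R) + log (1 + L)) - C (1 + K)`, where `R`, `L` are the numbers of elements `≥ x0 + D`, `≤ x0 - D` and `K` is the number of
dyadic annuli `2^i D ≤ |a - x0| < 2^(i+1) D` that meet `A`.

Sketch. The one-sided test functions `U`, `V` (see `Lib_SLit`) for the elements `≥ x0 + D` and `≤ x0 - D` are combined to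
`F = ∑ (b_k/2) (U^(k+1) V^k + conj (V^(k+1) U^k))`, where `∑ b_k cos((2k+1)x)` is bounded by `1` and close to the square wave, `b_0 ≥ 4/π - δ`; the maximum principle
gives `|F| ≤ 1`. The mixed terms satisfy `|[z^n] U^(k+1) V^k| ≤ 3 ‖U_{≤n/2}‖₂ ‖U_{≤n}‖₂`, and the energy of `U` below the `j`-th of the `N` elements on the right is at
most `1/(4 (s+N-j))`. So the total of the mixed terms is at most a constant times the number of occupied dyadic annuli.
-/

set_option autoImplicit false

namespace Pool.Agent.Results.MP_25630e_an.FewAnnuli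

theorem result (δ : ℝ) (hδ : 0 < δ) : ∃ C : ℝ, ∀ (A : Finset ℤ) (x0 : ℤ) (D : ℕ), 0 < D →
    (2 / Real.pi ^ 2 - δ) * (Real.log (1 + (A.filter (fun a => x0 + D ≤ a)).card) +
        Real.log (1 + (A.filter (fun a => a ≤ x0 - D)).card)) -
      C * (1 + ((A.filter (fun a => D ≤ (a - x0).natAbs)).image
        (fun a => Nat.log 2 ((a - x0).natAbs / D))).card) ≤
      ∫ x in (0:ℝ)..1, ‖∑ a ∈ A, Complex.exp (2 * (Real.pi : ℂ) * Complex.I * (a : ℂ) * (x : ℂ))‖ := by
  obtain ⟨C, -, hC⟩ := Pool.Agent.SLit.two_bound δ hδ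
  refine ⟨C, fun A x0 D hD => ?_⟩
  have h := hC A x0 D hD
  unfold Pool.Agent.SLit.annuli at h
  rw [add_comm (1 : ℝ), add_comm (1 : ℝ)]
  convert h using 2

end Pool.Agent.Results.MP_25630e_an.FewAnnuli
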