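import Pool.Agent.Lib_MP_25630e_an.Main

/-!
# MP_25630e_an: Littlewood's conjecture with the constant 0.28

For every finite set `A` of integers, `∫₀¹ |∑_{a ∈ A} e(a x)| dx ≥ 0.28 log |A|`.

Sketch. Let `A_j` be the set of the `2^j` smallest elements of `A`, `f_j` the normalised exponential
sum over `A_j`, `y_j = |f_j| ≤ 1`. For outer functions `E_j` (spectrum in the nonpositive integers)
the function `F = 1/4 ∑ f_j E_j` satisfies `|F| ≤ 1/4 ∑ y_j |E_j|` and, by Jensen,
`Re ∫ F conj(f) ≥ 1/4 ∑ 2^j ∫ (1 + log|E_j| - (1 - y_j²)|E_j|)`. Lagrange duality decouples the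
pointwise choice of the moduli `|E_j|` and reduces everything to the inequality
`log (1 - y² + t y) + 0.78 y² ≤ t (Th t - Th (t/2))` with an explicit `0 ≤ Th ≤ 4`.
-/

set_option autoImplicit false

namespace Pool.Agent.Results.MP_25630e_an.LittlewoodConstant

open MeasureTheory AddCircle Pool.Agent.LitCon

/-- For every finite set `A` of integers, the `L¹` norm of its exponential sum is at least
`0.28 log |A|`. -/
theorem result :
    ∀ A : Finset ℤ, (7 / 25 : ℝ) * Real.log (A.card : ℝ) ≤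
      ∫ x in (0:ℝ)..1,
        ‖∑ a ∈ A, Complex.exp (2 * (Real.pi : ℂ) * Complex.I * (a : ℂ) * (x : ℂ))‖ := by
  intro A
  have hint : ∫ x in (0:ℝ)..1,
        ‖∑ a ∈ A, Complex.exp (2 * (Real.pi : ℂ) * Complex.I * (a : ℂ) * (x : ℂ))‖
      = ∫ x, ‖DD A x‖ ∂(haarAddCircle (T := (1:ℝ))) := by
    have h1 := UnitAddCircle.intervalIntegral_preimage 0 (fun x => ‖DD A x‖)
    have h2 : ∫ x, ‖DD A x‖ ∂(haarAddCircle (T := (1:ℝ))) = ∫ x : UnitAddCircle, ‖DD A x‖ := by
      rw [integral_haarAddCircle, inv_one, one_smul]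
    rw [h2, ← h1, zero_add]
    refine intervalIntegral.integral_congr fun x _ => ?_
    simp only [DD_apply]
    congr 1
    refine Finset.sum_congr rfl fun a _ => ?_
    rw [fourier_coe_apply]
    simp
  rw [hint]
  rcases Nat.eq_zero_or_pos A.card with h0 | hpos
  · rw [h0]
    simp only [Nat.cast_zero, Real.log_zero, mul_zero]
    exact integral_nonneg fun x => norm_nonneg _
  have hK : ∀ j < Nat.log 2 A.card + 1, 2 ^ j ≤ A.card := fun j hj =>
    (Nat.pow_le_pow_right (by norm_num) (by omega)).trans (Nat.pow_log_le_self 2 hpos.ne')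
  refine le_trans ?_ (main_circle A (Nat.log 2 A.card + 1) hK)
  have h3 : (A.card : ℝ) ≤ 2 ^ (Nat.log 2 A.card + 1) := by
    exact_mod_cast (Nat.lt_pow_succ_log_self (by norm_num) A.card).le
  have h4 : Real.log (A.card : ℝ) ≤ ((Nat.log 2 A.card + 1 : ℕ) : ℝ) * Real.log 2 := by
    rw [← Real.log_pow]
    exact Real.log_le_log (by exact_mod_cast hpos) h3
  have h5 := Real.log_two_lt_d9
  have h6 : (0:ℝ) ≤ ((Nat.log 2 A.card + 1 : ℕ) : ℝ) := by positivity
  nlinarith

end Pool.Agent.Results.MP_25630e_an.LittlewoodConstant
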